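import Pool.Agent.Work.MP_5dd17b_co.Main

set_option autoImplicit false

theorem Pool.Agent.Results.MP_5dd17b_co.AbelianNormal.result :
    ∀ (l B : ℕ) (η : ℝ), 2 ≤ l → 0 < η → ∃ C : ℝ,
      ∀ (G : Type) [Group G] [Fintype G] (P : Subgroup G), Nontrivial G → P.Normal →
        (∀ x ∈ P, ∀ y ∈ P, x * y = y * x) →
        Nat.card {x : G // x ∈ P ∧ x ^ l = 1} ≤ B →
        (P.index : ℝ) * (1 + Real.log (Nat.card {x : G // x ∈ P ∧ x ^ (l ^ 3 - l) = 1}))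
          ≤ Real.log (Fintype.card G) ^ (1 - η) →
        ∃ S : Set G, 1 ∉ S ∧ (∀ x, x⁻¹ ∈ S ↔ x ∈ S) ∧ ∀ s : Finset G,
          ((SimpleGraph.fromRel (fun x y : G => x⁻¹ * y ∈ S)).IsClique (s : Set G) ∨
            (SimpleGraph.fromRel (fun x y : G => x⁻¹ * y ∈ S))ᶜ.IsClique (s : Set G)) →
          (s.card : ℝ) ≤ C * Real.log (Fintype.card G) :=
  Pool.Agent.Work.MP_5dd17b_co.ramsey_cayley
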