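import Pool.Agent.Work.MP_5dd17b_co.LinMain

set_option autoImplicit false

theorem Pool.Agent.Results.MP_5dd17b_co.LinearGroups.result :
    ∀ n : ℕ, ∃ C : ℝ, ∀ (F : Type) [Field F], (6 : F) ≠ 0 →
      ∀ (G : Type) [Group G] [Fintype G] (φ : G →* Matrix.GeneralLinearGroup (Fin n) F),
        Nontrivial G → Function.Injective φ →
        ∃ S : Set G, 1 ∉ S ∧ (∀ x, x⁻¹ ∈ S ↔ x ∈ S) ∧ ∀ s : Finset G,
          ((SimpleGraph.fromRel (fun x y : G => x⁻¹ * y ∈ S)).IsClique (s : Set G) ∨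
            (SimpleGraph.fromRel (fun x y : G => x⁻¹ * y ∈ S))ᶜ.IsClique (s : Set G)) →
          (s.card : ℝ) ≤ C * Real.log (Fintype.card G) :=
  Pool.Agent.Work.MP_5dd17b_co.linear_groups
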