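import Pool.Agent.Work.MP_5dd17b_co.PmMain

set_option autoImplicit false

theorem Pool.Agent.Results.MP_5dd17b_co.PermGroups.result :
    ∃ C : ℝ, ∀ ε : ℝ, 0 < ε → ∀ (m : ℕ) (G : Type) [Group G] [Fintype G]
      (φ : G →* Equiv.Perm (Fin m)), Nontrivial G → Function.Injective φ →
        ε * (m * Real.log m) ≤ Real.log (Fintype.card G) →
        ∃ S : Set G, 1 ∉ S ∧ (∀ x, x⁻¹ ∈ S ↔ x ∈ S) ∧ ∀ s : Finset G,
          ((SimpleGraph.fromRel (fun x y : G => x⁻¹ * y ∈ S)).IsClique (s : Set G) ∨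
            (SimpleGraph.fromRel (fun x y : G => x⁻¹ * y ∈ S))ᶜ.IsClique (s : Set G)) →
          (s.card : ℝ) ≤ C / ε * Real.log (Fintype.card G) :=
  Pool.Agent.Work.MP_5dd17b_co.Pm.perm_alon
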