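import Pool.Agent.Work.MP_5dd17b_co.SolMain

set_option autoImplicit false

theorem Pool.Agent.Results.MP_5dd17b_co.SolvableGroups.result :
    ∀ (l B t : ℕ) (η : ℝ), 2 ≤ l → 0 < η → ∃ C : ℝ,
      ∀ (G : Type) [Group G] [Fintype G] (P : Subgroup G), Nontrivial G → Group.IsSolvable P →
        (∀ y : G, Nat.card {x : G // x ∈ P ∧ x ^ l = y} ≤ B) →
        (∀ H : Subgroup G, H ≤ P → (∀ x ∈ H, ∀ y ∈ H, x * y = y * x) →
          (∀ x ∈ H, x ^ (l ^ 3 - l) = 1) → Nat.card H ≤ t) →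
        (P.index : ℝ) ≤ Real.log (Fintype.card G) ^ (1 - η) →
        ∃ S : Set G, 1 ∉ S ∧ (∀ x, x⁻¹ ∈ S ↔ x ∈ S) ∧ ∀ s : Finset G,
          ((SimpleGraph.fromRel (fun x y : G => x⁻¹ * y ∈ S)).IsClique (s : Set G) ∨
            (SimpleGraph.fromRel (fun x y : G => x⁻¹ * y ∈ S))ᶜ.IsClique (s : Set G)) →
          (s.card : ℝ) ≤ C * Real.log (Fintype.card G) :=
  Pool.Agent.Work.MP_5dd17b_co.solvable_groups
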